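import Pool.Agent.H31.CN.T2

/-!
# Board cna_modules, row DER: derivatives with respect to the discriminant
-/

set_option autoImplicit false

open MeasureTheory Set Filter
open scoped Real Matrix MatrixGroups Topology

namespace Pool.Agent.H66.CN

open Pool.Agent.H31.CN

private theorem openSec : IsOpen Sec := isOpen_lt (by fun_prop) (by fun_prop)

private theorem pos_mem {u : ℝ} (hu : 0 < u) : (u : ℂ) ∈ Sec := by
  change |(u : ℂ).im| < (u : ℂ).re
  simpa using hu

/-- the real derivatives of a holomorphic function on the sector -/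
private theorem real_der {h : ℂ → ℂ} {g : ℝ → ℝ} (hh : DifferentiableOn ℂ h Sec)
    (hg : ∀ u : ℝ, 0 < u → h u = ((g u : ℝ) : ℂ)) (j : ℕ) :
    ∀ u : ℝ, 0 < u → iteratedDeriv j g u = (iteratedDeriv j h u).re := by
  induction j with
  | zero =>
    intro u hu
    rw [iteratedDeriv_zero, iteratedDeriv_zero, hg u hu, Complex.ofReal_re]
  | succ j ih =>
    intro u hu
    rw [iteratedDeriv_succ, iteratedDeriv_succ]
    have han : AnalyticAt ℂ h (u : ℂ) := hh.analyticAt (openSec.mem_nhds (pos_mem hu))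
    have h1 : DifferentiableAt ℂ (iteratedDeriv j h) (u : ℂ) := by
      rw [iteratedDeriv_eq_iterate]
      exact (han.iterated_deriv j).differentiableAt
    have h2 := h1.hasDerivAt.real_of_complex
    have h3 : iteratedDeriv j g =ᶠ[𝓝 u] fun x : ℝ => (iteratedDeriv j h (x : ℂ)).re := by
      filter_upwards [Ioi_mem_nhds hu] with x hx
      exact ih x hx
    rw [h3.deriv_eq, h2.deriv]

private theorem real_smooth {h : ℂ → ℂ} {g : ℝ → ℝ} (hh : DifferentiableOn ℂ h Sec)
    (hg : ∀ u : ℝ, 0 < u → h u = ((g u : ℝ) : ℂ)) (k : ℕ) {u : ℝ} (hu : 0 < u) :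
    ContDiffAt ℝ k g u := by
  have han : AnalyticAt ℂ h (u : ℂ) := hh.analyticAt (openSec.mem_nhds (pos_mem hu))
  have h1 : ContDiffAt ℝ k h (u : ℂ) := han.contDiffAt.restrict_scalars ℝ
  have h2 : ContDiffAt ℝ k (fun x : ℝ => (h (x : ℂ)).re) u := by
    have h3 : ContDiffAt ℝ k (fun x : ℝ => h (x : ℂ)) u :=
      ContDiffAt.comp u h1 Complex.ofRealCLM.contDiff.contDiffAt
    exact Complex.reCLM.contDiff.contDiffAt.comp u h3
  refine h2.congr_of_eventuallyEq ?_
  filter_upwards [Ioi_mem_nhds hu] with x hx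
  rw [hg x hx, Complex.ofReal_re]

theorem pf_DER (hHZ : T_HZ) (hHV : T_HV) : T_DER := by
  obtain ⟨C₁, k₀, hC₁, hZ⟩ := hHZ
  obtain ⟨C₂, hC₂, hV⟩ := hHV
  intro G η hη hG hsupp
  refine ⟨k₀, fun k => ?_⟩
  -- bounds for the derivatives of `G`
  have hGb : ∀ i : ℕ, ∃ b : ℝ, 0 ≤ b ∧ ∀ u ∈ Icc η 1, |iteratedDeriv i G u| ≤ b := by
    intro i
    have hc : Continuous (iteratedDeriv i G) :=
      hG.continuous_iteratedDeriv i (by exact_mod_cast le_top)
    obtain ⟨b, hb⟩ := isCompact_Icc.exists_bound_of_continuousOn hc.continuousOn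
      (s := Icc η 1)
    refine ⟨max b 0, le_max_right _ _, fun u hu => ?_⟩
    exact (hb u hu).trans (le_max_left _ _)
  choose b hb0 hb using hGb
  set R : ℝ := 5 / 4 + 4 / (3 * η) with hR
  have hR0 : 0 < R := by positivity
  set M₀ : ℝ := C₂ * (C₁ * R ^ k₀) with hM₀
  have hM₀0 : 0 < M₀ := by positivity
  set S : ℝ := ∑ i ∈ Finset.range (k + 1), (k.choose i : ℝ) * b i *
    (((k - i).factorial : ℝ) * M₀ / (η / 4) ^ (k - i)) with hS
  have hS0 : 0 ≤ S := Finset.sum_nonneg fun i _ => by
    have := hb0 i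
    positivity
  refine ⟨S + 1, by linarith, fun A B X x hA hX hx => ?_⟩
  have hX0 : 0 < X := by linarith
  have hsX : 0 < Real.sqrt X := Real.sqrt_pos.2 hX0
  obtain ⟨fZ, hfZ1, hfZ2, hfZ3⟩ := hZ A B X hA hX
  obtain ⟨fV, hfV1, hfV2, hfV3⟩ := hV (x / Real.sqrt X) (by positivity)
  set g : ℝ → ℝ := fun u => Vk (x / Real.sqrt (X * u)) * zf A B (X * u) with hg
  have hh : DifferentiableOn ℂ (fun w => fV w * fZ w) Sec := hfV1.mul hfZ1
  have hgh : ∀ u : ℝ, 0 < u → (fun w => fV w * fZ w) (u : ℂ) = ((g u : ℝ) : ℂ) := by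
    intro u hu
    simp only [hg]
    rw [hfV2 u hu, hfZ2 u hu, Complex.ofReal_mul, Real.sqrt_mul hX0.le, div_div]
  have hfun : (fun u : ℝ => G u * Vk (x / Real.sqrt (X * u)) * zf A B (X * u)) = G * g := by
    funext u
    simp only [hg, Pi.mul_apply]
    ring
  rw [hfun]
  have hzero : ∀ u : ℝ, u ∉ Icc η 1 → (G * g) =ᶠ[𝓝 u] fun _ => (0 : ℝ) := by
    intro u hu
    filter_upwards [isClosed_Icc.isOpen_compl.mem_nhds hu] with v hv
    rw [Pi.mul_apply, hsupp v hv, zero_mul]
  have hGk : ∀ u, ContDiffAt ℝ k G u := fun u =>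
    (hG.contDiffAt).of_le (by exact_mod_cast le_top)
  constructor
  · rw [contDiff_iff_contDiffAt]
    intro u
    rcases lt_or_ge 0 u with hu | hu
    · exact (hGk u).mul (real_smooth hh hgh k hu)
    · refine contDiffAt_const.congr_of_eventuallyEq (hzero u ?_)
      intro hm
      linarith [hm.1]
  · intro u
    by_cases hu : u ∈ Icc η 1
    · have hu0 : 0 < u := lt_of_lt_of_le hη hu.1
      have hη1 : η ≤ 1 := hu.1.trans hu.2
      -- the disc
      have hball : Metric.closedBall (u : ℂ) (η / 4) ⊆ Sec := by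
        intro w hw
        rw [Metric.mem_closedBall, dist_eq_norm] at hw
        have e1 := (Complex.abs_re_le_norm (w - u)).trans hw
        have e2 := (Complex.abs_im_le_norm (w - u)).trans hw
        rw [Complex.sub_re, Complex.ofReal_re, abs_le] at e1
        rw [Complex.sub_im, Complex.ofReal_im, sub_zero] at e2
        change |w.im| < w.re
        linarith [e1.1, hu.1]
      have hd : DiffContOnCl ℂ (fun w => fV w * fZ w) (Metric.ball (u : ℂ) (η / 4)) :=
        (hh.mono (Metric.closure_ball_subset_closedBall.trans hball)).diffContOnCl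
      have hbound : ∀ w ∈ Metric.sphere (u : ℂ) (η / 4), ‖fV w * fZ w‖ ≤
          M₀ * ((A + X) ^ k₀ * Real.exp (-(4 * x / Real.sqrt X))) := by
        intro w hw
        have hwS : w ∈ Sec := hball (Metric.sphere_subset_closedBall hw)
        rw [mem_sphere_iff_norm] at hw
        have hun : ‖(u : ℂ)‖ = u := by
          rw [Complex.norm_real, Real.norm_of_nonneg hu0.le]
        have n1 : ‖w‖ ≤ 5 / 4 := by
          have : ‖w‖ ≤ ‖w - u‖ + ‖(u : ℂ)‖ := by
            have := norm_add_le (w - u) (u : ℂ)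
            rwa [sub_add_cancel] at this
          rw [hw, hun] at this
          linarith [hu.2]
        have n2 : 3 * η / 4 ≤ ‖w‖ := by
          have : ‖(u : ℂ)‖ ≤ ‖w - u‖ + ‖w‖ := by
            have := norm_sub_le w (w - u)
            rw [sub_sub_cancel] at this
            linarith
          rw [hw, hun] at this
          linarith [hu.1]
        have n3 : 0 < ‖w‖ := lt_of_lt_of_le (by positivity) n2
        have n4 : ‖w‖ + ‖w‖⁻¹ ≤ R := by
          have : ‖w‖⁻¹ ≤ 4 / (3 * η) := by
            rw [inv_eq_one_div, div_le_div_iff₀ n3 (by positivity)]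
            linarith
          rw [hR]
          linarith
        have n5 : Real.exp (-(5 * (x / Real.sqrt X) / Real.sqrt ‖w‖)) ≤
            Real.exp (-(4 * x / Real.sqrt X)) := by
          refine Real.exp_le_exp.2 (neg_le_neg ?_)
          have m1 : Real.sqrt ‖w‖ ≤ 5 / 4 := by
            rw [Real.sqrt_le_left (by norm_num)]
            linarith
          have m2 : 0 < Real.sqrt ‖w‖ := Real.sqrt_pos.2 n3
          rw [le_div_iff₀ m2]
          have m3 : 0 < x / Real.sqrt X := by positivity
          have m4 : 4 * x / Real.sqrt X = 4 * (x / Real.sqrt X) := by ring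
          rw [m4]
          nlinarith
        rw [norm_mul]
        have n6 : ‖fZ w‖ ≤ C₁ * R ^ k₀ * (A + X) ^ k₀ := by
          refine (hfZ3 w hwS).trans ?_
          have : (‖w‖ + ‖w‖⁻¹) ^ k₀ ≤ R ^ k₀ := pow_le_pow_left₀ (by positivity) n4 k₀
          calc C₁ * (A + X) ^ k₀ * (‖w‖ + ‖w‖⁻¹) ^ k₀ ≤ C₁ * (A + X) ^ k₀ * R ^ k₀ :=
                mul_le_mul_of_nonneg_left this (by positivity)
            _ = _ := by ring
        calc ‖fV w‖ * ‖fZ w‖ ≤ (C₂ * Real.exp (-(4 * x / Real.sqrt X))) *
              (C₁ * R ^ k₀ * (A + X) ^ k₀) :=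
              mul_le_mul ((hfV3 w hwS).trans (mul_le_mul_of_nonneg_left n5 hC₂.le)) n6
                (norm_nonneg _) (by positivity)
          _ = _ := by rw [hM₀]; ring
      have hder : ∀ j : ℕ, |iteratedDeriv j g u| ≤ (j.factorial : ℝ) *
          (M₀ * ((A + X) ^ k₀ * Real.exp (-(4 * x / Real.sqrt X)))) / (η / 4) ^ j := by
        intro j
        rw [real_der hh hgh j u hu0]
        refine (Complex.abs_re_le_norm _).trans ?_
        exact Complex.norm_iteratedDeriv_le_of_forall_mem_sphere_norm_le j (by positivity) hd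
          hbound
      rw [iteratedDeriv_mul (hGk u) (real_smooth hh hgh k hu0)]
      refine (Finset.abs_sum_le_sum_abs _ _).trans ?_
      set E : ℝ := (A + X) ^ k₀ * Real.exp (-(4 * x / Real.sqrt X)) with hE
      have hE0 : 0 < E := by positivity
      calc ∑ i ∈ Finset.range (k + 1), |(k.choose i : ℝ) * iteratedDeriv i G u *
            iteratedDeriv (k - i) g u|
          ≤ ∑ i ∈ Finset.range (k + 1), ((k.choose i : ℝ) * b i *
            (((k - i).factorial : ℝ) * M₀ / (η / 4) ^ (k - i))) * E := by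
            refine Finset.sum_le_sum fun i _ => ?_
            rw [abs_mul, abs_mul, abs_of_nonneg (by positivity : (0 : ℝ) ≤ (k.choose i : ℝ))]
            have t1 : (k.choose i : ℝ) * |iteratedDeriv i G u| ≤ (k.choose i : ℝ) * b i :=
              mul_le_mul_of_nonneg_left (hb i u hu) (by positivity)
            refine (mul_le_mul t1 (hder (k - i)) (abs_nonneg _)
              (mul_nonneg (by positivity) (hb0 i))).trans (le_of_eq ?_)
            ring
        _ = S * E := by rw [hS, Finset.sum_mul]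
        _ ≤ (S + 1) * E := mul_le_mul_of_nonneg_right (by linarith) hE0.le
        _ = _ := by rw [hE]; ring
    · rw [(hzero u hu).iteratedDeriv_eq k]
      have : iteratedDeriv k (fun _ : ℝ => (0 : ℝ)) u = 0 := by
        simp
      rw [this, abs_zero]
      positivity

end Pool.Agent.H66.CN
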