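import Pool.Agent.H66.CN.EC

/-!
# Board cna_modules, row HV: the cut-off function as a holomorphic function of the discriminant
-/

set_option autoImplicit false

open MeasureTheory Set Filter
open scoped Real Matrix MatrixGroups Topology

namespace Pool.Agent.H66.CN

open Pool.Agent.H31.CN

/-- the power `w ^ (-1/4)` -/
noncomputable def qr (w : ℂ) : ℂ := w ^ ((-(1 / 4) : ℝ) : ℂ)

theorem diff_qr {w : ℂ} (hw : w ∈ Sec) : DifferentiableAt ℂ qr w := by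
  unfold qr
  exact DifferentiableAt.cpow differentiableAt_id (differentiableAt_const _) (Sec_slit hw)

theorem norm_qr (w : ℂ) : ‖qr w‖ = ‖w‖ ^ (-(1 / 4) : ℝ) := by
  unfold qr
  rw [Complex.norm_cpow_real]

theorem qr_ofReal {u : ℝ} (hu : 0 < u) : qr (u : ℂ) = ((u ^ (-(1 / 4) : ℝ) : ℝ) : ℂ) := by
  unfold qr
  rw [Complex.ofReal_cpow hu.le]

theorem sqrt_quot {x r : ℝ} (hx : 0 < x) (hr : 0 < r) :
    Real.sqrt (x / Real.sqrt r) = Real.sqrt x * r ^ (-(1 / 4) : ℝ) := by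
  rw [Real.sqrt_div hx.le, div_eq_mul_inv]
  congr 1
  rw [Real.sqrt_eq_rpow, Real.sqrt_eq_rpow, ← Real.rpow_mul hr.le, ← Real.rpow_neg hr.le]
  norm_num

theorem pf_HV : T_HV := by
  obtain ⟨C, hC, hE⟩ := norm_Ec
  refine ⟨2 * C, by positivity, fun x hx => ?_⟩
  refine ⟨fun w => ((Real.sqrt (2 * x) : ℝ) : ℂ) * qr w * Ec ((x : ℂ) * (zr w)⁻¹ +
    ((0 : ℝ) : ℂ) * zr w), ?_, ?_, ?_⟩
  · intro w hw
    have h1 := (comb hw hx.le le_rfl (by linarith)).1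
    have h2 : DifferentiableAt ℂ (fun w => (x : ℂ) * (zr w)⁻¹ + ((0 : ℝ) : ℂ) * zr w) w :=
      (((diff_zr hw).inv (zr_ne hw)).const_mul _).add ((diff_zr hw).const_mul _)
    exact (((diff_qr hw).const_mul _).mul ((diff_Ec h1).comp w h2)).differentiableWithinAt
  · intro u hu
    simp only
    rw [zr_ofReal hu, qr_ofReal hu]
    have e1 : (x : ℂ) * ((Real.sqrt u : ℝ) : ℂ)⁻¹ + ((0 : ℝ) : ℂ) * ((Real.sqrt u : ℝ) : ℂ) =
        ((x / Real.sqrt u : ℝ) : ℂ) := by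
      push_cast
      ring
    rw [e1, Ec_ofReal, ← Complex.ofReal_mul, ← Complex.ofReal_mul]
    congr 1
    unfold Vk
    rw [← mul_div_assoc, sqrt_quot (by positivity) hu]
  · intro w hw
    have hw0 : 0 < ‖w‖ := norm_pos_iff.2 (Sec_ne hw)
    obtain ⟨h1, -, h3⟩ := comb hw hx.le le_rfl (by linarith)
    have h4 := hE _ h1 h3
    have e1 : ‖(x : ℂ) * (zr w)⁻¹ + ((0 : ℝ) : ℂ) * zr w‖ = x / Real.sqrt ‖w‖ := by
      rw [Complex.ofReal_zero, zero_mul, add_zero, norm_mul, norm_inv, norm_zr,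
        Complex.norm_real, Real.norm_of_nonneg hx.le, div_eq_mul_inv]
    rw [e1, sqrt_quot hx hw0] at h4
    rw [norm_mul, norm_mul, Complex.norm_real, Real.norm_of_nonneg (Real.sqrt_nonneg _), norm_qr,
      Real.sqrt_mul (by norm_num)]
    have h5 : Real.sqrt 2 ≤ 2 := by
      rw [Real.sqrt_le_left (by norm_num)]; norm_num
    have h6 : 5 * (x / Real.sqrt ‖w‖) = 5 * x / Real.sqrt ‖w‖ := by ring
    rw [h6] at h4
    calc Real.sqrt 2 * Real.sqrt x * ‖w‖ ^ (-(1 / 4) : ℝ) *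
          ‖Ec ((x : ℂ) * (zr w)⁻¹ + ((0 : ℝ) : ℂ) * zr w)‖
        = Real.sqrt 2 * (Real.sqrt x * ‖w‖ ^ (-(1 / 4) : ℝ) *
          ‖Ec ((x : ℂ) * (zr w)⁻¹ + ((0 : ℝ) : ℂ) * zr w)‖) := by ring
      _ ≤ 2 * (C * Real.exp (-(5 * x / Real.sqrt ‖w‖))) :=
        mul_le_mul h5 h4 (by positivity) (by norm_num)
      _ = _ := by ring

end Pool.Agent.H66.CN
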