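import Pool.Agent.H66.CN.HV

/-!
# Board cna_modules, row HZ: the central value as a holomorphic function of the discriminant
-/

set_option autoImplicit false

open MeasureTheory Set Filter
open scoped Real Matrix MatrixGroups Topology

namespace Pool.Agent.H66.CN

open Pool.Agent.H31.CN

/-! ### Gaussian sums -/

/-- the majorant -/
noncomputable def hh (x : ℤ) : ℝ := 1 / (1 + (x : ℝ) ^ 2) + 1 / (1 + ((x : ℝ) + 1) ^ 2)

theorem hh_nonneg (x : ℤ) : 0 ≤ hh x := by unfold hh; positivity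

theorem summable_hh : Summable hh := by
  have h1 : Summable (fun x : ℤ => 1 / (1 + (x : ℝ) ^ 2)) := by
    have h2 : Summable (fun x : ℤ => 2 * (1 / (x : ℝ) ^ 2)) :=
      (Real.summable_one_div_int_pow.2 (by norm_num)).mul_left 2
    refine Summable.of_norm_bounded_eventually
      (g := fun x : ℤ => 2 * (1 / (x : ℝ) ^ 2)) h2 ?_
    rw [Filter.eventually_cofinite]
    refine (Set.finite_singleton (0 : ℤ)).subset ?_
    intro x hx
    by_contra h0
    apply hx
    have hx0 : x ≠ 0 := h0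
    have hx1 : 0 < (x : ℝ) ^ 2 := by positivity
    rw [Real.norm_of_nonneg (by positivity)]
    rw [mul_one_div, div_le_div_iff₀ (by positivity) hx1]
    nlinarith
  have h3 : Summable (fun x : ℤ => 1 / (1 + ((x : ℝ) + 1) ^ 2)) := by
    have h4 := (Equiv.addRight (1 : ℤ)).summable_iff.2 h1
    refine h4.congr fun x => ?_
    simp [Function.comp]
  exact h1.add h3

theorem exp_le_frac {α : ℝ} (hα : 0 < α) (t : ℝ) :
    Real.exp (-(α * t ^ 2)) ≤ (1 + 1 / α) * (1 / (1 + t ^ 2)) := by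
  have h1 : 1 + α * t ^ 2 ≤ Real.exp (α * t ^ 2) := by
    have := Real.add_one_le_exp (α * t ^ 2)
    linarith
  have h2 : Real.exp (-(α * t ^ 2)) ≤ 1 / (1 + α * t ^ 2) := by
    rw [Real.exp_neg, ← one_div]
    exact one_div_le_one_div_of_le (by positivity) h1
  refine h2.trans ?_
  rw [mul_one_div, div_le_div_iff₀ (by positivity) (by positivity)]
  have h3 : (1 + 1 / α) * (1 + α * t ^ 2) = 1 + α * t ^ 2 + 1 / α + t ^ 2 := by
    field_simp
    ring
  rw [h3]
  have : 0 < 1 / α := by positivity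
  nlinarith [sq_nonneg t, mul_nonneg hα.le (sq_nonneg t)]

theorem frac_le_hh (x : ℤ) {φ : ℝ} (h0 : 0 ≤ φ) (h1 : φ < 1) :
    1 / (1 + ((x : ℝ) + φ) ^ 2) ≤ hh x := by
  unfold hh
  rcases le_or_gt 0 x with hx | hx
  · have hx' : (0 : ℝ) ≤ x := by exact_mod_cast hx
    have : 1 / (1 + ((x : ℝ) + φ) ^ 2) ≤ 1 / (1 + (x : ℝ) ^ 2) := by
      refine one_div_le_one_div_of_le (by positivity) ?_
      nlinarith
    have h2 : 0 ≤ 1 / (1 + ((x : ℝ) + 1) ^ 2) := by positivity
    linarith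
  · have hx' : (x : ℝ) + 1 ≤ 0 := by exact_mod_cast Int.add_one_le_iff.2 hx
    have : 1 / (1 + ((x : ℝ) + φ) ^ 2) ≤ 1 / (1 + ((x : ℝ) + 1) ^ 2) := by
      refine one_div_le_one_div_of_le (by positivity) ?_
      nlinarith
    have h2 : 0 ≤ 1 / (1 + (x : ℝ) ^ 2) := by positivity
    linarith

/-- the terms of the Gaussian sum -/
noncomputable def gs (α α' β : ℝ) (v : ℤ × ℤ) : ℝ :=
  Real.exp (-(α * ((v.1 : ℝ) + β * v.2) ^ 2 + α' * (v.2 : ℝ) ^ 2))

/-- the shear -/
noncomputable def shear (β : ℝ) : ℤ × ℤ ≃ ℤ × ℤ where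
  toFun v := (v.1 - ⌊β * v.2⌋, v.2)
  invFun v := (v.1 + ⌊β * v.2⌋, v.2)
  left_inv v := by simp
  right_inv v := by simp

theorem gs_shear {α α' : ℝ} (hα : 0 < α) (hα' : 0 < α') (β : ℝ) (v : ℤ × ℤ) :
    gs α α' β (shear β v) ≤ ((1 + 1 / α) * (1 + 1 / α')) * (hh v.1 * hh v.2) := by
  have e : gs α α' β (shear β v) =
      Real.exp (-(α * ((v.1 : ℝ) + Int.fract (β * v.2)) ^ 2)) *
        Real.exp (-(α' * ((v.2 : ℝ)) ^ 2)) := by
    unfold gs shear
    rw [← Real.exp_add]
    congr 1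
    simp only [Equiv.coe_fn_mk, Int.fract]
    push_cast
    ring
  rw [e]
  have h1 := (exp_le_frac hα ((v.1 : ℝ) + Int.fract (β * v.2))).trans
    (mul_le_mul_of_nonneg_left (frac_le_hh v.1 (Int.fract_nonneg (β * v.2))
      (Int.fract_lt_one (β * v.2))) (by positivity))
  have h0 : 1 / (1 + (v.2 : ℝ) ^ 2) ≤ hh v.2 := by
    simpa using frac_le_hh v.2 (le_refl (0 : ℝ)) one_pos
  have h2 : Real.exp (-(α' * ((v.2 : ℝ)) ^ 2)) ≤ (1 + 1 / α') * hh v.2 :=
    (exp_le_frac hα' (v.2 : ℝ)).trans (mul_le_mul_of_nonneg_left h0 (by positivity))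
  calc _ ≤ ((1 + 1 / α) * hh v.1) * ((1 + 1 / α') * hh v.2) :=
        mul_le_mul h1 h2 (Real.exp_pos _).le (mul_nonneg (by positivity) (hh_nonneg _))
    _ = _ := by ring

theorem gs_sum : ∃ K : ℝ, 0 < K ∧ ∀ α α' β : ℝ, 0 < α → 0 < α' → Summable (gs α α' β) ∧
    ∑' v, gs α α' β v ≤ K * ((1 + 1 / α) * (1 + 1 / α')) := by
  have hs : Summable (fun v : ℤ × ℤ => hh v.1 * hh v.2) :=
    summable_hh.mul_of_nonneg summable_hh (fun x => hh_nonneg x) (fun x => hh_nonneg x)
  refine ⟨(∑' v : ℤ × ℤ, hh v.1 * hh v.2) + 1, ?_, ?_⟩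
  · have : 0 ≤ ∑' v : ℤ × ℤ, hh v.1 * hh v.2 :=
      tsum_nonneg fun v => mul_nonneg (hh_nonneg _) (hh_nonneg _)
    linarith
  · intro α α' β hα hα'
    have h0 : ∀ v, 0 ≤ gs α α' β v := fun v => (Real.exp_pos _).le
    have hs1 : Summable (fun v => gs α α' β (shear β v)) :=
      Summable.of_nonneg_of_le (fun v => h0 _) (gs_shear hα hα' β) (hs.mul_left _)
    refine ⟨(shear β).summable_iff.1 hs1, ?_⟩
    rw [← (shear β).tsum_eq (gs α α' β)]
    refine (hs1.tsum_le_tsum (gs_shear hα hα' β) (hs.mul_left _)).trans ?_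
    rw [tsum_mul_left, mul_comm]
    refine mul_le_mul_of_nonneg_right (by linarith) (by positivity)

/-! ### the terms -/

/-- the first coefficient -/
noncomputable def ca (A B : ℝ) (v : ℤ × ℤ) : ℝ := (2 * A * v.1 + B * v.2) ^ 2 / (4 * A)

/-- the second coefficient -/
noncomputable def cb (A : ℝ) (v : ℤ × ℤ) : ℝ := (v.2 : ℝ) ^ 2 / (4 * A)

/-- the argument of the kernel -/
noncomputable def qv (A B X : ℝ) (v : ℤ × ℤ) (w : ℂ) : ℂ :=
  ((ca A B v / Real.sqrt X : ℝ) : ℂ) * (zr w)⁻¹ + ((cb A v * Real.sqrt X : ℝ) : ℂ) * zr w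

open scoped Classical in
/-- the terms -/
noncomputable def Fv (A B X : ℝ) (v : ℤ × ℤ) (w : ℂ) : ℂ := if v = 0 then 0 else Ec (qv A B X v w)

theorem ca_nonneg {A : ℝ} (hA : 0 < A) (B : ℝ) (v : ℤ × ℤ) : 0 ≤ ca A B v := by
  unfold ca; positivity

theorem cb_nonneg {A : ℝ} (hA : 0 < A) (v : ℤ × ℤ) : 0 ≤ cb A v := by
  unfold cb; positivity

/-- the lower bound for the size of the argument -/
theorem rho_lower {A : ℝ} (hA : 1 ≤ A) (B : ℝ) {s : ℝ} (hs : 0 < s) {v : ℤ × ℤ} (hv : v ≠ 0) :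
    0 < ca A B v / s + cb A v * s ∧ 1 / (ca A B v / s + cb A v * s) ≤ 4 * A / s + s := by
  have hA0 : 0 < A := by linarith
  have ha := ca_nonneg hA0 B v
  have hb := cb_nonneg hA0 v
  by_cases hy : v.2 = 0
  · have hx : v.1 ≠ 0 := fun h => hv (Prod.ext h hy)
    have hx1 : (1 : ℝ) ≤ (v.1 : ℝ) ^ 2 := by
      have : (1 : ℤ) ≤ v.1 ^ 2 := Int.one_le_abs hx |> fun h => by
        nlinarith [sq_abs v.1]
      exact_mod_cast this
    have h1 : A ≤ ca A B v := by
      unfold ca
      rw [hy]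
      simp only [Int.cast_zero, mul_zero, add_zero]
      rw [le_div_iff₀ (by positivity)]
      nlinarith [mul_nonneg hA0.le (sub_nonneg.2 hx1), mul_nonneg (mul_nonneg hA0.le hA0.le) (sub_nonneg.2 hx1)]
    have h2 : A / s ≤ ca A B v / s + cb A v * s := by
      have := div_le_div_of_nonneg_right h1 hs.le
      have h3 : 0 ≤ cb A v * s := by positivity
      linarith
    have h3 : 0 < A / s := by positivity
    refine ⟨by linarith, (one_div_le_one_div_of_le h3 h2).trans ?_⟩
    have h4 : 1 / (A / s) ≤ s := by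
      rw [one_div_div, div_le_iff₀ hA0]
      nlinarith
    have h5 : 0 ≤ 4 * A / s := by positivity
    linarith
  · have hy1 : (1 : ℝ) ≤ (v.2 : ℝ) ^ 2 := by
      have : (1 : ℤ) ≤ v.2 ^ 2 := Int.one_le_abs hy |> fun h => by
        nlinarith [sq_abs v.2]
      exact_mod_cast this
    have h2 : s / (4 * A) ≤ ca A B v / s + cb A v * s := by
      have h3 : 0 ≤ ca A B v / s := by positivity
      have h4 : s / (4 * A) ≤ cb A v * s := by
        unfold cb
        rw [div_mul_eq_mul_div]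
        refine div_le_div_of_nonneg_right ?_ (by positivity)
        nlinarith
      linarith
    have h3 : 0 < s / (4 * A) := by positivity
    refine ⟨by linarith, (one_div_le_one_div_of_le h3 h2).trans ?_⟩
    rw [one_div_div]
    linarith

/-- the bound for the terms -/
theorem norm_Fv {C : ℝ} (hC : 0 < C) (hE : ∀ q : ℂ, 0 < q.re → 9 / 10 * ‖q‖ ≤ q.re →
    Real.sqrt ‖q‖ * ‖Ec q‖ ≤ C * Real.exp (-(5 * ‖q‖))) {A : ℝ} (hA : 1 ≤ A) (B : ℝ) {X : ℝ}
    (hX : 1 ≤ X) (v : ℤ × ℤ) {w : ℂ} (hw : w ∈ Sec) :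
    ‖Fv A B X v w‖ ≤ C * (1 + 2 * (4 * A / (Real.sqrt X * ‖zr w‖) + Real.sqrt X * ‖zr w‖)) *
      gs (4 * A / (Real.sqrt X * ‖zr w‖)) (Real.sqrt X * ‖zr w‖ / A) (B / (2 * A)) v := by
  have hA0 : 0 < A := by linarith
  have hX0 : 0 < Real.sqrt X := Real.sqrt_pos.2 (by linarith)
  have hz : 0 < ‖zr w‖ := norm_pos_iff.2 (zr_ne hw)
  set s := Real.sqrt X * ‖zr w‖ with hs
  have hs0 : 0 < s := by positivity
  unfold Fv
  split_ifs with hv
  · rw [norm_zero]
    have : 0 < gs (4 * A / s) (s / A) (B / (2 * A)) v := Real.exp_pos _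
    positivity
  obtain ⟨h1, h2⟩ := rho_lower hA B hs0 hv
  have ha := ca_nonneg hA0 B v
  have hb := cb_nonneg hA0 v
  set ρ := ca A B v / s + cb A v * s with hρ
  have hab : 0 < ca A B v / Real.sqrt X + cb A v * Real.sqrt X := by
    by_contra hcon
    have e1 : 0 ≤ ca A B v / Real.sqrt X := by positivity
    have e2 : 0 ≤ cb A v * Real.sqrt X := by positivity
    have e3 : ca A B v / Real.sqrt X = 0 := by linarith
    have e4 : cb A v * Real.sqrt X = 0 := by linarith
    have e5 : ca A B v = 0 := by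
      rcases div_eq_zero_iff.1 e3 with h | h
      · exact h
      · exact absurd h hX0.ne'
    have e6 : cb A v = 0 := by
      rcases mul_eq_zero.1 e4 with h | h
      · exact h
      · exact absurd h hX0.ne'
    rw [hρ, e5, e6] at h1
    simp at h1
  obtain ⟨c1, c2, c3⟩ := comb hw (a := ca A B v / Real.sqrt X) (b := cb A v * Real.sqrt X)
    (by positivity) (by positivity) hab
  have hρ2 : ca A B v / Real.sqrt X * ‖zr w‖⁻¹ + cb A v * Real.sqrt X * ‖zr w‖ = ρ := by
    rw [hρ, hs]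
    field_simp
  rw [hρ2] at c2
  have hq : qv A B X v w = ((ca A B v / Real.sqrt X : ℝ) : ℂ) * (zr w)⁻¹ +
    ((cb A v * Real.sqrt X : ℝ) : ℂ) * zr w := rfl
  rw [← hq] at c1 c2 c3
  have h3 := hE _ c1 c3
  have h4 : 9 / 10 * ρ ≤ ‖qv A B X v w‖ := c2.trans (Complex.re_le_norm _)
  set t := ‖qv A B X v w‖ with ht
  have ht0 : 0 < t := by linarith
  have h5 : 1 ≤ (1 + 1 / t) * Real.sqrt t := by
    have e1 : 0 < Real.sqrt t := Real.sqrt_pos.2 ht0
    have e2 : Real.sqrt t * Real.sqrt t = t := Real.mul_self_sqrt ht0.le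
    have e3 : (1 + 1 / t) * Real.sqrt t = Real.sqrt t + 1 / Real.sqrt t := by
      rw [add_mul, one_mul]
      congr 1
      rw [div_mul_eq_mul_div, one_mul, div_eq_div_iff ht0.ne' e1.ne']
      linarith
    rw [e3]
    rcases le_or_gt 1 (Real.sqrt t) with h | h
    · have : 0 < 1 / Real.sqrt t := by positivity
      linarith
    · have : 1 ≤ 1 / Real.sqrt t := by
        rw [le_div_iff₀ e1]; linarith
      linarith
  have h6 : ‖Ec (qv A B X v w)‖ ≤ (1 + 1 / t) * (C * Real.exp (-(5 * t))) := by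
    calc ‖Ec (qv A B X v w)‖ = 1 * ‖Ec (qv A B X v w)‖ := (one_mul _).symm
      _ ≤ ((1 + 1 / t) * Real.sqrt t) * ‖Ec (qv A B X v w)‖ :=
        mul_le_mul_of_nonneg_right h5 (norm_nonneg _)
      _ = (1 + 1 / t) * (Real.sqrt t * ‖Ec (qv A B X v w)‖) := by ring
      _ ≤ _ := mul_le_mul_of_nonneg_left h3 (by positivity)
  have h7 : 1 / t ≤ 2 * (4 * A / s + s) := by
    have e1 : 1 / t ≤ 1 / (9 / 10 * ρ) := one_div_le_one_div_of_le (by positivity) h4
    have e2 : 1 / (9 / 10 * ρ) = 10 / 9 * (1 / ρ) := by field_simp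
    rw [e2] at e1
    have e3 : 0 < 1 / ρ := by positivity
    nlinarith
  have h8 : Real.exp (-(5 * t)) ≤ gs (4 * A / s) (s / A) (B / (2 * A)) v := by
    unfold gs
    refine Real.exp_le_exp.2 (neg_le_neg ?_)
    have e1 : 4 * A / s * ((v.1 : ℝ) + B / (2 * A) * v.2) ^ 2 + s / A * (v.2 : ℝ) ^ 2 =
        4 * ρ := by
      rw [hρ]
      unfold ca cb
      field_simp
      ring
    rw [e1]
    linarith
  calc ‖Ec (qv A B X v w)‖ ≤ (1 + 1 / t) * (C * Real.exp (-(5 * t))) := h6
    _ ≤ (1 + 2 * (4 * A / s + s)) * (C * gs (4 * A / s) (s / A) (B / (2 * A)) v) := by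
      refine mul_le_mul (by linarith) (mul_le_mul_of_nonneg_left h8 hC.le) (by positivity)
        (by positivity)
    _ = _ := by ring

theorem gs_mono {α α' α₁ α₁' β : ℝ} (h : α₁ ≤ α) (h' : α₁' ≤ α') (v : ℤ × ℤ) :
    gs α α' β v ≤ gs α₁ α₁' β v := by
  unfold gs
  refine Real.exp_le_exp.2 (neg_le_neg ?_)
  exact add_le_add (mul_le_mul_of_nonneg_right h (sq_nonneg _))
    (mul_le_mul_of_nonneg_right h' (sq_nonneg _))

theorem diff_Fv {A : ℝ} (hA : 1 ≤ A) (B : ℝ) {X : ℝ} (hX : 1 ≤ X) (v : ℤ × ℤ) {w : ℂ}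
    (hw : w ∈ Sec) : DifferentiableAt ℂ (Fv A B X v) w := by
  have hA0 : 0 < A := by linarith
  have hX0 : 0 < Real.sqrt X := Real.sqrt_pos.2 (by linarith)
  unfold Fv
  by_cases hv : v = 0
  · simp only [hv, if_true]
    exact differentiableAt_const _
  · simp only [hv, if_false]
    have ha := ca_nonneg hA0 B v
    have hb := cb_nonneg hA0 v
    obtain ⟨h1, -⟩ := rho_lower hA B one_pos hv
    rw [div_one, mul_one] at h1
    have hab : 0 < ca A B v / Real.sqrt X + cb A v * Real.sqrt X := by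
      rcases ha.lt_or_eq with h | h
      · have e2 : 0 ≤ cb A v * Real.sqrt X := by positivity
        have e1 : 0 < ca A B v / Real.sqrt X := by positivity
        linarith
      · have : 0 < cb A v := by linarith
        have e1 : 0 ≤ ca A B v / Real.sqrt X := by positivity
        have e2 : 0 < cb A v * Real.sqrt X := by positivity
        linarith
    have c1 := (comb hw (a := ca A B v / Real.sqrt X) (b := cb A v * Real.sqrt X)
      (by positivity) (by positivity) hab).1
    have h2 : DifferentiableAt ℂ (qv A B X v) w :=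
      (((diff_zr hw).inv (zr_ne hw)).const_mul _).add ((diff_zr hw).const_mul _)
    exact (diff_Ec c1).comp w h2

/-- holomorphy of the sum -/
theorem diff_sum {A : ℝ} (hA : 1 ≤ A) (B : ℝ) {X : ℝ} (hX : 1 ≤ X) {w₀ : ℂ} (hw₀ : w₀ ∈ Sec) :
    DifferentiableAt ℂ (fun w => ∑' v, Fv A B X v w) w₀ := by
  obtain ⟨C, hC, hE⟩ := norm_Ec
  obtain ⟨K, hK, hG⟩ := gs_sum
  have hA0 : 0 < A := by linarith
  have hX0 : 0 < Real.sqrt X := Real.sqrt_pos.2 (by linarith)
  have hz : 0 < ‖zr w₀‖ := norm_pos_iff.2 (zr_ne hw₀)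
  set s₀ := Real.sqrt X * ‖zr w₀‖ with hs
  have hs0 : 0 < s₀ := by positivity
  have hw0 : 0 < ‖w₀‖ := norm_pos_iff.2 (Sec_ne hw₀)
  set U : Set ℂ := Sec ∩ ({w : ℂ | ‖w₀‖ / 4 < ‖w‖} ∩ {w : ℂ | ‖w‖ < 4 * ‖w₀‖}) with hU
  have hUo : IsOpen U := isOpen_Sec.inter
    ((isOpen_lt (by fun_prop) (by fun_prop)).inter (isOpen_lt (by fun_prop) (by fun_prop)))
  have hUm : w₀ ∈ U := by
    refine ⟨hw₀, ?_, ?_⟩
    · change ‖w₀‖ / 4 < ‖w₀‖
      linarith
    · change ‖w₀‖ < 4 * ‖w₀‖
      linarith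
  have hbd : ∀ w ∈ U, s₀ / 2 ≤ Real.sqrt X * ‖zr w‖ ∧ Real.sqrt X * ‖zr w‖ ≤ 2 * s₀ := by
    rintro w ⟨hw, h1, h2⟩
    have h1' : ‖w₀‖ / 4 < ‖w‖ := h1
    have h2' : ‖w‖ < 4 * ‖w₀‖ := h2
    have e1 : ‖zr w₀‖ / 2 ≤ ‖zr w‖ := by
      rw [norm_zr, norm_zr]
      have : Real.sqrt ‖w₀‖ / 2 = Real.sqrt (‖w₀‖ / 4) := by
        rw [Real.sqrt_div hw0.le]
        congr 1
        rw [show (4 : ℝ) = 2 ^ 2 by norm_num, Real.sqrt_sq (by norm_num)]
      rw [this]
      exact Real.sqrt_le_sqrt h1'.le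
    have e2 : ‖zr w‖ ≤ 2 * ‖zr w₀‖ := by
      rw [norm_zr, norm_zr]
      have : 2 * Real.sqrt ‖w₀‖ = Real.sqrt (4 * ‖w₀‖) := by
        rw [Real.sqrt_mul (by norm_num)]
        congr 1
        rw [show (4 : ℝ) = 2 ^ 2 by norm_num, Real.sqrt_sq (by norm_num)]
      rw [this]
      exact Real.sqrt_le_sqrt h2'.le
    constructor
    · rw [hs]
      nlinarith
    · rw [hs]
      nlinarith
  have key : DifferentiableOn ℂ (fun w => ∑' v, Fv A B X v w) U := by
    refine Complex.differentiableOn_tsum_of_summable_norm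
      (u := fun v => C * (1 + 2 * (8 * A / s₀ + 2 * s₀)) *
        gs (2 * A / s₀) (s₀ / (2 * A)) (B / (2 * A)) v)
      ((hG _ _ _ (by positivity) (by positivity)).1.mul_left _) ?_ hUo ?_
    · intro v w hw
      exact (diff_Fv hA B hX v hw.1).differentiableWithinAt
    · intro v w hw
      obtain ⟨b1, b2⟩ := hbd w hw
      refine (norm_Fv hC hE hA B hX v hw.1).trans ?_
      set s := Real.sqrt X * ‖zr w‖ with hs'
      have hs1 : 0 < s := by linarith
      have e1 : 4 * A / s ≤ 8 * A / s₀ := by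
        rw [div_le_div_iff₀ hs1 hs0]
        nlinarith
      have e2 : 2 * A / s₀ ≤ 4 * A / s := by
        rw [div_le_div_iff₀ hs0 hs1]
        nlinarith
      have e3 : s₀ / (2 * A) ≤ s / A := by
        rw [div_le_div_iff₀ (by positivity) hA0]
        nlinarith
      have e4 : 0 < gs (4 * A / s) (s / A) (B / (2 * A)) v := Real.exp_pos _
      refine mul_le_mul ?_ (gs_mono e2 e3 v) e4.le (by positivity)
      refine mul_le_mul_of_nonneg_left ?_ hC.le
      linarith
  exact key.differentiableAt (hUo.mem_nhds hUm)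

theorem pf_HZ : T_HZ := by
  obtain ⟨C, hC, hE⟩ := norm_Ec
  obtain ⟨K, hK, hG⟩ := gs_sum
  refine ⟨72 * C * K, 4, by positivity, fun A B X hA hX => ?_⟩
  have hA0 : 0 < A := by linarith
  have hX1 : 0 < X := by linarith
  have hX0 : 0 < Real.sqrt X := Real.sqrt_pos.2 (by linarith)
  refine ⟨fun w => ((Real.sqrt 2 * X ^ (-(1 / 4) : ℝ) : ℝ) : ℂ) * qr w *
    ∑' v, Fv A B X v w, ?_, ?_, ?_⟩
  · intro w hw
    exact (((diff_qr hw).const_mul _).mul (diff_sum hA B hX hw)).differentiableWithinAt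
  · intro u hu
    simp only
    have hXu : 0 < X * u := by positivity
    rw [qr_ofReal hu, ← Complex.ofReal_mul]
    have h1 : ∀ v : ℤ × ℤ, Fv A B X v (u : ℂ) =
        (((if v = 0 then 0 else Ek (qd A B (X * u) v / Real.sqrt (X * u)) : ℝ)) : ℂ) := by
      intro v
      unfold Fv
      by_cases hv : v = 0
      · rw [if_pos hv, if_pos hv, Complex.ofReal_zero]
      · rw [if_neg hv, if_neg hv]
        have e1 : qv A B X v (u : ℂ) = ((qd A B (X * u) v / Real.sqrt (X * u) : ℝ) : ℂ) := by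
          unfold qv
          rw [zr_ofReal hu, ← Complex.ofReal_inv, ← Complex.ofReal_mul, ← Complex.ofReal_mul,
            ← Complex.ofReal_add]
          congr 1
          have hu0 : 0 < Real.sqrt u := Real.sqrt_pos.2 hu
          have hXs : Real.sqrt X ^ 2 = X := Real.sq_sqrt hX1.le
          have hus : Real.sqrt u ^ 2 = u := Real.sq_sqrt hu.le
          unfold ca cb qd
          rw [Real.sqrt_mul hX1.le]
          field_simp
          rw [hXs, hus]
        rw [e1, Ec_ofReal]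
    have h2 : ∑' v, Fv A B X v (u : ℂ) =
        ((∑' v : ℤ × ℤ, (if v = 0 then 0 else Ek (qd A B (X * u) v / Real.sqrt (X * u))) : ℝ) :
          ℂ) := by
      rw [Complex.ofReal_tsum]
      exact tsum_congr h1
    rw [h2, ← Complex.ofReal_mul]
    congr 1
    unfold zf
    rw [← tsum_mul_left]
    refine tsum_congr fun v => ?_
    by_cases hv : v = 0
    · rw [if_pos hv, mul_zero]
      subst hv
      unfold qd
      simp
    · rw [if_neg hv]
      have hqd : 0 < qd A B (X * u) v := by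
        have h3 := (rho_lower hA B (s := Real.sqrt (X * u)) (Real.sqrt_pos.2 hXu) hv).1
        have h4 : qd A B (X * u) v = (ca A B v / Real.sqrt (X * u) + cb A v *
            Real.sqrt (X * u)) * Real.sqrt (X * u) := by
          unfold qd ca cb
          have : Real.sqrt (X * u) ^ 2 = X * u := Real.sq_sqrt hXu.le
          have hne : Real.sqrt (X * u) ≠ 0 := (Real.sqrt_pos.2 hXu).ne'
          field_simp
          rw [this]
          ring
        rw [h4]
        exact mul_pos h3 (Real.sqrt_pos.2 hXu)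
      unfold Vk
      rw [← mul_div_assoc, sqrt_quot (by positivity) hXu,
        Real.sqrt_mul (show (0 : ℝ) ≤ 2 by norm_num) (qd A B (X * u) v),
        Real.mul_rpow hX1.le hu.le]
      have hne : Real.sqrt (qd A B (X * u) v) ≠ 0 := (Real.sqrt_pos.2 hqd).ne'
      field_simp
  · intro w hw
    have hw0 : 0 < ‖w‖ := norm_pos_iff.2 (Sec_ne hw)
    have hz : 0 < ‖zr w‖ := norm_pos_iff.2 (zr_ne hw)
    set r := ‖w‖ with hr
    set L := r + r⁻¹ with hL
    set s := Real.sqrt X * ‖zr w‖ with hs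
    have hs0 : 0 < s := by positivity
    have hL1 : r ≤ L := by
      have : 0 < r⁻¹ := by positivity
      linarith
    have hL2 : r⁻¹ ≤ L := by linarith
    have hL0 : 1 ≤ L := by
      rcases le_or_gt 1 r with h | h
      · linarith
      · have : 1 ≤ r⁻¹ := (one_le_inv₀ hw0).2 h.le
        linarith
    have hs2 : s ^ 2 = X * r := by
      rw [hs, mul_pow, Real.sq_sqrt hX1.le, norm_zr, Real.sq_sqrt hw0.le]
    have hsL : s ≤ X * L := by
      refine le_of_sq_le_sq ?_ (by positivity)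
      rw [hs2]
      calc X * r ≤ X * L := mul_le_mul_of_nonneg_left hL1 hX1.le
        _ = (X * L) * 1 := (mul_one _).symm
        _ ≤ (X * L) * (X * L) := mul_le_mul_of_nonneg_left (one_le_mul_of_one_le_of_one_le hX hL0)
            (by positivity)
        _ = _ := by ring
    have hsI : 1 / s ≤ L := by
      refine le_of_sq_le_sq ?_ (by positivity)
      rw [div_pow, hs2, one_pow, div_le_iff₀ (by positivity)]
      have e1 : 1 ≤ L * r := by
        calc 1 = r⁻¹ * r := (inv_mul_cancel₀ hw0.ne').symm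
          _ ≤ L * r := mul_le_mul_of_nonneg_right hL2 hw0.le
      calc 1 ≤ L * r := e1
        _ = 1 * 1 * (L * r) := by ring
        _ ≤ L * X * (L * r) := mul_le_mul_of_nonneg_right
            (mul_le_mul hL0 hX (by norm_num) (by positivity)) (by positivity)
        _ = _ := by ring
    set N := A + X with hN
    have hN1 : 1 ≤ N := by linarith
    have hNL : 1 ≤ N * L := one_le_mul_of_one_le_of_one_le hN1 hL0
    have hGs := hG (4 * A / s) (s / A) (B / (2 * A)) (by positivity) (by positivity)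
    have b1 : ‖∑' v, Fv A B X v w‖ ≤ C * (1 + 2 * (4 * A / s + s)) *
        (K * ((1 + 1 / (4 * A / s)) * (1 + 1 / (s / A)))) := by
      refine (tsum_of_norm_bounded (hGs.1.mul_left _).hasSum
        fun v => norm_Fv hC hE hA B hX v hw).trans ?_
      rw [tsum_mul_left]
      exact mul_le_mul_of_nonneg_left hGs.2 (by positivity)
    have p1 : 1 + 2 * (4 * A / s + s) ≤ 9 * (N * L) := by
      have e1 : 4 * A / s = 4 * A * (1 / s) := by ring
      rw [e1]
      have e2 : 4 * A * (1 / s) ≤ 4 * A * L := mul_le_mul_of_nonneg_left hsI (by positivity)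
      have e3 : N * L = A * L + X * L := by rw [hN]; ring
      have e4 : 0 ≤ X * L := by positivity
      have e5 : 0 ≤ A * L := by positivity
      nlinarith
    have p2 : 1 + 1 / (4 * A / s) ≤ 2 * (N * L) := by
      rw [one_div_div]
      have e1 : s / (4 * A) ≤ s := div_le_self hs0.le (by linarith)
      have e3 : N * L = A * L + X * L := by rw [hN]; ring
      have e5 : 0 ≤ A * L := by positivity
      linarith
    have p3 : 1 + 1 / (s / A) ≤ 2 * (N * L) := by
      rw [one_div_div]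
      have e1 : A / s = A * (1 / s) := by ring
      rw [e1]
      have e2 : A * (1 / s) ≤ A * L := mul_le_mul_of_nonneg_left hsI hA0.le
      have e3 : N * L = A * L + X * L := by rw [hN]; ring
      have e4 : 0 ≤ X * L := by positivity
      linarith
    have p4 : r ^ (-(1 / 4) : ℝ) ≤ L := by
      rcases le_or_gt 1 r with h | h
      · exact (Real.rpow_le_one_of_one_le_of_nonpos h (by norm_num)).trans hL0
      · calc r ^ (-(1 / 4) : ℝ) ≤ r ^ (-1 : ℝ) :=
              Real.rpow_le_rpow_of_exponent_ge hw0 h.le (by norm_num)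
          _ = r⁻¹ := Real.rpow_neg_one r
          _ ≤ L := hL2
    have p5 : X ^ (-(1 / 4) : ℝ) ≤ 1 := Real.rpow_le_one_of_one_le_of_nonpos hX (by norm_num)
    have p6 : Real.sqrt 2 ≤ 2 := by
      rw [Real.sqrt_le_left (by norm_num)]; norm_num
    rw [norm_mul, norm_mul, Complex.norm_real, Real.norm_of_nonneg (by positivity), norm_qr]
    calc Real.sqrt 2 * X ^ (-(1 / 4) : ℝ) * r ^ (-(1 / 4) : ℝ) * ‖∑' v, Fv A B X v w‖
        ≤ 2 * 1 * L * (C * (9 * (N * L)) * (K * ((2 * (N * L)) * (2 * (N * L))))) := by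
          refine mul_le_mul ?_ (b1.trans ?_) (norm_nonneg _) (by positivity)
          · refine mul_le_mul (mul_le_mul p6 p5 (by positivity) (by norm_num)) p4
              (by positivity) (by positivity)
          · refine mul_le_mul (mul_le_mul_of_nonneg_left p1 hC.le) ?_ (by positivity)
              (by positivity)
            refine mul_le_mul_of_nonneg_left ?_ hK.le
            exact mul_le_mul p2 p3 (by positivity) (by positivity)
      _ = 72 * C * K * (N ^ 3 * 1) * L ^ 4 := by ring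
      _ ≤ 72 * C * K * (N ^ 3 * N) * L ^ 4 := by
          refine mul_le_mul_of_nonneg_right ?_ (by positivity)
          refine mul_le_mul_of_nonneg_left ?_ (by positivity)
          exact mul_le_mul_of_nonneg_left hN1 (by positivity)
      _ = _ := by ring

end Pool.Agent.H66.CN
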