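import Pool.Agent.H31.CN.T2

/-!
# Board cna_modules, rows HV, HZ: the complex kernel
-/

set_option autoImplicit false

open MeasureTheory Set Filter
open scoped Real Matrix MatrixGroups Topology

namespace Pool.Agent.H66.CN

open Pool.Agent.H31.CN

/-- the complex kernel -/
noncomputable def Ec (q : ℂ) : ℂ :=
  (∫ t in Ioi (1 : ℝ), Complex.exp (-(2 * π * q * t)) * ((t ^ (-(1 / 2) : ℝ) : ℝ) : ℂ)) +
    2 * (1 - 4 * π * q) * Complex.exp (-(2 * π * q))

theorem Ec_ofReal (q : ℝ) : Ec (q : ℂ) = ((Ek q : ℝ) : ℂ) := by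
  unfold Ec Ek
  rw [Complex.ofReal_add, ← integral_complex_ofReal]
  congr 1
  · refine integral_congr_ae (ae_of_all _ fun t => ?_)
    simp only
    push_cast
    ring_nf
  · push_cast
    ring_nf

theorem int0 {σ : ℝ} (hσ : 0 < σ) :
    IntegrableOn (fun t : ℝ => Real.exp (-(σ * t)) * t ^ (-(1 / 2) : ℝ)) (Ioi 0) ∧
    ∫ t in Ioi (0 : ℝ), Real.exp (-(σ * t)) * t ^ (-(1 / 2) : ℝ) = Real.sqrt (π / σ) := by
  constructor
  · have h := integrableOn_rpow_mul_exp_neg_mul_rpow (s := -(1 / 2)) (p := 1) (b := σ)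
      (by norm_num) (by norm_num) hσ
    refine h.congr_fun (fun t _ => ?_) measurableSet_Ioi
    simp only [Real.rpow_one]
    rw [mul_comm, neg_mul]
  · have h := Real.integral_rpow_mul_exp_neg_mul_Ioi (a := 1 / 2) (r := σ) (by norm_num) hσ
    rw [Real.Gamma_one_half_eq] at h
    have h2 : Real.sqrt (π / σ) = (1 / σ) ^ (1 / 2 : ℝ) * Real.sqrt π := by
      rw [← Real.sqrt_eq_rpow, ← Real.sqrt_mul (by positivity)]
      congr 1
      ring
    rw [h2, ← h]
    refine integral_congr_ae (ae_of_all _ fun t => ?_)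
    simp only
    rw [mul_comm]
    norm_num

theorem intg {q : ℂ} (hq : 0 < q.re) :
    IntegrableOn (fun t : ℝ => Complex.exp (-(2 * π * q * t)) * ((t ^ (-(1 / 2) : ℝ) : ℝ) : ℂ))
      (Ioi 1) := by
  have h := (int0 (σ := 2 * π * q.re) (by positivity)).1.mono_set
    (Ioi_subset_Ioi (zero_le_one (α := ℝ)))
  refine Integrable.mono' h ?_ ?_
  · refine (Continuous.aestronglyMeasurable (by fun_prop)).mul ?_
    refine (Complex.continuous_ofReal.measurable.comp ?_).aestronglyMeasurable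
    exact measurable_id.pow_const _
  · refine (ae_restrict_iff' measurableSet_Ioi).2 (ae_of_all _ fun t ht => ?_)
    have ht0 : (0 : ℝ) < t := lt_trans one_pos ht
    rw [norm_mul, Complex.norm_exp, Complex.norm_real, Real.norm_of_nonneg (by positivity)]
    have : (-(2 * (π : ℂ) * q * t)).re = -(2 * π * q.re * t) := by
      simp [Complex.mul_re, Complex.mul_im]
    rw [this]

/-- bound for the integral -/
theorem norm_int {q : ℂ} (hq : 0 < q.re) :
    ‖∫ t in Ioi (1 : ℝ), Complex.exp (-(2 * π * q * t)) * ((t ^ (-(1 / 2) : ℝ) : ℝ) : ℂ)‖ ≤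
      Real.exp (-(9 / 5 * π * q.re)) * Real.sqrt (5 / q.re) := by
  have hπ := Real.pi_pos
  have hs : 0 < π / 5 * q.re := by positivity
  obtain ⟨hi, hv⟩ := int0 hs
  have h1 : ‖∫ t in Ioi (1 : ℝ), Complex.exp (-(2 * π * q * t)) *
      ((t ^ (-(1 / 2) : ℝ) : ℝ) : ℂ)‖ ≤ ∫ t in Ioi (1 : ℝ), Real.exp (-(9 / 5 * π * q.re)) *
        (Real.exp (-(π / 5 * q.re * t)) * t ^ (-(1 / 2) : ℝ)) := by
    refine norm_integral_le_of_norm_le ((hi.mono_set
      (Ioi_subset_Ioi (zero_le_one (α := ℝ)))).const_mul _) ?_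
    refine (ae_restrict_iff' measurableSet_Ioi).2 (ae_of_all _ fun t ht => ?_)
    have ht1 : (1 : ℝ) < t := ht
    have ht0 : (0 : ℝ) < t := lt_trans one_pos ht
    rw [norm_mul, Complex.norm_exp, Complex.norm_real, Real.norm_of_nonneg (by positivity),
      ← mul_assoc, ← Real.exp_add]
    refine mul_le_mul_of_nonneg_right (Real.exp_le_exp.2 ?_) (by positivity)
    have : (-(2 * (π : ℂ) * q * t)).re = -(2 * π * q.re * t) := by
      simp [Complex.mul_re, Complex.mul_im]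
    rw [this]
    have h5 : 9 / 5 * π * q.re * 1 ≤ 9 / 5 * π * q.re * t :=
      mul_le_mul_of_nonneg_left ht1.le (by positivity)
    nlinarith
  refine h1.trans ?_
  rw [integral_const_mul]
  refine mul_le_mul_of_nonneg_left ?_ (Real.exp_pos _).le
  have h2 : ∫ t in Ioi (1 : ℝ), Real.exp (-(π / 5 * q.re * t)) * t ^ (-(1 / 2) : ℝ) ≤
      ∫ t in Ioi (0 : ℝ), Real.exp (-(π / 5 * q.re * t)) * t ^ (-(1 / 2) : ℝ) := by
    refine setIntegral_mono_set hi ?_ (Ioi_subset_Ioi (zero_le_one (α := ℝ))).eventuallyLE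
    refine (ae_restrict_iff' measurableSet_Ioi).2 (ae_of_all _ fun t ht => ?_)
    have ht0 : (0 : ℝ) < t := ht
    exact mul_nonneg (Real.exp_pos _).le (by positivity)
  refine h2.trans ?_
  rw [hv]
  refine Real.sqrt_le_sqrt (le_of_eq ?_)
  field_simp

/-- the bound for the kernel -/
theorem norm_Ec : ∃ C : ℝ, 0 < C ∧ ∀ q : ℂ, 0 < q.re → 9 / 10 * ‖q‖ ≤ q.re →
    Real.sqrt ‖q‖ * ‖Ec q‖ ≤ C * Real.exp (-(5 * ‖q‖)) := by
  refine ⟨1000, by norm_num, fun q hq hqr => ?_⟩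
  have hπ := Real.pi_pos
  have hπ3 := Real.pi_gt_d2
  have hπ4 : π ≤ 3.15 := Real.pi_lt_d2.le
  set ρ := ‖q‖ with hρ
  have hρ0 : 0 < ρ := lt_of_lt_of_le hq (Complex.re_le_norm q)
  have hsq : Real.sqrt ρ ≤ 1 + ρ := by
    rw [Real.sqrt_le_left (by positivity)]
    nlinarith
  have h1 := norm_int hq
  have e1 : Real.exp (-(9 / 5 * π * q.re)) ≤ Real.exp (-(5 * ρ)) := by
    refine Real.exp_le_exp.2 ?_
    have : (3.14 : ℝ) * (9 / 10 * ρ) ≤ π * q.re := by
      refine mul_le_mul hπ3.le hqr (by positivity) hπ.le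
    nlinarith
  have h2 : ‖(2 : ℂ) * (1 - 4 * π * q) * Complex.exp (-(2 * π * q))‖ ≤
      2 * (1 + 13 * ρ) * Real.exp (-(5.6 * ρ)) := by
    rw [norm_mul, norm_mul, Complex.norm_exp]
    have e2 : ‖(1 : ℂ) - 4 * π * q‖ ≤ 1 + 13 * ρ := by
      refine (norm_sub_le _ _).trans ?_
      rw [norm_one, norm_mul, norm_mul, Complex.norm_real, Real.norm_of_nonneg hπ.le]
      have : ‖(4 : ℂ)‖ = 4 := by simp
      rw [this]
      nlinarith
    have e3 : (-(2 * (π : ℂ) * q)).re = -(2 * π * q.re) := by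
      simp [Complex.mul_re, Complex.mul_im]
    rw [e3]
    have e4 : Real.exp (-(2 * π * q.re)) ≤ Real.exp (-(5.6 * ρ)) := by
      refine Real.exp_le_exp.2 ?_
      have : (3.14 : ℝ) * (9 / 10 * ρ) ≤ π * q.re := by
        refine mul_le_mul hπ3.le hqr (by positivity) hπ.le
      nlinarith
    have e5 : ‖(2 : ℂ)‖ = 2 := by simp
    rw [e5]
    refine mul_le_mul (mul_le_mul_of_nonneg_left e2 (by norm_num)) e4 (Real.exp_pos _).le
      (by positivity)
  have h3 : Real.sqrt ρ * Real.sqrt (5 / q.re) ≤ 3 := by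
    rw [← Real.sqrt_mul hρ0.le]
    rw [Real.sqrt_le_left (by norm_num)]
    rw [mul_div_assoc', div_le_iff₀ hq]
    nlinarith
  -- the polynomial factor
  have h4 : Real.sqrt ρ * (2 * (1 + 13 * ρ) * Real.exp (-(5.6 * ρ))) ≤
      900 * Real.exp (-(5 * ρ)) := by
    have e6 : Real.exp (-(5.6 * ρ)) = Real.exp (-(5 * ρ)) * Real.exp (-(0.6 * ρ)) := by
      rw [← Real.exp_add]; congr 1; ring
    have e7 : (1 + ρ) ^ 2 * Real.exp (-(0.6 * ρ)) ≤ 100 / 9 := by
      have e8 : 0.3 * ρ + 1 ≤ Real.exp (0.3 * ρ) := Real.add_one_le_exp _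
      have e9 : (0.3 * (1 + ρ)) ^ 2 ≤ Real.exp (0.3 * ρ) ^ 2 :=
        pow_le_pow_left₀ (by positivity) (by linarith) 2
      rw [← Real.exp_nat_mul] at e9
      have e10 : Real.exp (((2 : ℕ) : ℝ) * (0.3 * ρ)) * Real.exp (-(0.6 * ρ)) = 1 := by
        rw [← Real.exp_add]
        have : ((2 : ℕ) : ℝ) * (0.3 * ρ) + -(0.6 * ρ) = 0 := by push_cast; ring
        rw [this, Real.exp_zero]
      have e11 := mul_le_mul_of_nonneg_right e9 (Real.exp_pos (-(0.6 * ρ))).le
      rw [e10] at e11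
      nlinarith
    rw [e6]
    calc Real.sqrt ρ * (2 * (1 + 13 * ρ) * (Real.exp (-(5 * ρ)) * Real.exp (-(0.6 * ρ))))
        ≤ (1 + ρ) * (2 * (13 * (1 + ρ)) * (Real.exp (-(5 * ρ)) * Real.exp (-(0.6 * ρ)))) := by
          refine mul_le_mul hsq ?_ (by positivity) (by positivity)
          refine mul_le_mul_of_nonneg_right ?_ (by positivity)
          nlinarith
      _ = 26 * Real.exp (-(5 * ρ)) * ((1 + ρ) ^ 2 * Real.exp (-(0.6 * ρ))) := by ring
      _ ≤ 26 * Real.exp (-(5 * ρ)) * (100 / 9) :=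
          mul_le_mul_of_nonneg_left e7 (by positivity)
      _ ≤ 900 * Real.exp (-(5 * ρ)) := by
          have := Real.exp_pos (-(5 * ρ))
          nlinarith
  calc Real.sqrt ρ * ‖Ec q‖ ≤ Real.sqrt ρ *
        (Real.exp (-(9 / 5 * π * q.re)) * Real.sqrt (5 / q.re) +
          2 * (1 + 13 * ρ) * Real.exp (-(5.6 * ρ))) := by
        refine mul_le_mul_of_nonneg_left ?_ (Real.sqrt_nonneg _)
        exact (norm_add_le _ _).trans (add_le_add h1 h2)
    _ = (Real.sqrt ρ * Real.sqrt (5 / q.re)) * Real.exp (-(9 / 5 * π * q.re)) +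
        Real.sqrt ρ * (2 * (1 + 13 * ρ) * Real.exp (-(5.6 * ρ))) := by ring
    _ ≤ 3 * Real.exp (-(5 * ρ)) + 900 * Real.exp (-(5 * ρ)) := by
        refine add_le_add ?_ h4
        exact mul_le_mul h3 e1 (Real.exp_pos _).le (by norm_num)
    _ ≤ 1000 * Real.exp (-(5 * ρ)) := by
        have := Real.exp_pos (-(5 * ρ))
        nlinarith

/-- holomorphy of the kernel -/
theorem diff_Ec {q₀ : ℂ} (hq : 0 < q₀.re) : DifferentiableAt ℂ Ec q₀ := by
  have hπ := Real.pi_pos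
  unfold Ec
  refine DifferentiableAt.add ?_ (by fun_prop)
  have hb : Metric.ball q₀ (q₀.re / 2) ∈ 𝓝 q₀ := Metric.ball_mem_nhds _ (by positivity)
  have hre : ∀ q ∈ Metric.ball q₀ (q₀.re / 2), q₀.re / 2 ≤ q.re := by
    intro q hq'
    rw [Metric.mem_ball, dist_eq_norm] at hq'
    have h1 := (Complex.abs_re_le_norm (q - q₀)).trans hq'.le
    rw [Complex.sub_re, abs_le] at h1
    linarith [h1.1]
  have key := hasDerivAt_integral_of_dominated_loc_of_deriv_le
    (μ := volume.restrict (Ioi (1 : ℝ))) (x₀ := q₀) (s := Metric.ball q₀ (q₀.re / 2))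
    (F := fun (q : ℂ) (t : ℝ) =>
      Complex.exp (-(2 * π * q * t)) * ((t ^ (-(1 / 2) : ℝ) : ℝ) : ℂ))
    (F' := fun (q : ℂ) (t : ℝ) => (Complex.exp (-(2 * π * q * t)) * (-(2 * π * t))) *
      ((t ^ (-(1 / 2) : ℝ) : ℝ) : ℂ))
    (bound := fun t : ℝ => 2 * π * (t ^ (1 / 2 : ℝ) * Real.exp (-(π * q₀.re) * t ^ (1 : ℝ))))
    hb ?_ (intg hq) ?_ ?_ ?_ ?_
  · exact key.2.differentiableAt
  · refine Filter.eventually_of_mem hb fun q hq' => ?_
    exact (intg (lt_of_lt_of_le (by positivity) (hre q hq'))).aestronglyMeasurable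
  · refine ((Continuous.aestronglyMeasurable (by fun_prop))).mul ?_
    refine (Complex.continuous_ofReal.measurable.comp ?_).aestronglyMeasurable
    exact measurable_id.pow_const _
  · refine (ae_restrict_iff' measurableSet_Ioi).2 (ae_of_all _ fun t ht q hq' => ?_)
    have ht0 : (0 : ℝ) < t := lt_trans one_pos ht
    have h3 := hre q hq'
    rw [norm_mul, norm_mul, Complex.norm_exp, Complex.norm_real,
      Real.norm_of_nonneg (by positivity), norm_neg, norm_mul, norm_mul, Complex.norm_real,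
      Complex.norm_real, Real.norm_of_nonneg hπ.le, Real.norm_of_nonneg ht0.le]
    have e1 : (-(2 * (π : ℂ) * q * t)).re = -(2 * π * q.re * t) := by
      simp [Complex.mul_re, Complex.mul_im]
    have e2 : ‖(2 : ℂ)‖ = 2 := by simp
    have e3 : t * t ^ (-(1 / 2) : ℝ) = t ^ (1 / 2 : ℝ) := by
      conv_lhs => rw [← Real.rpow_one t, ← Real.rpow_mul ht0.le, ← Real.rpow_add ht0]
      norm_num
    rw [e1, e2]
    have e4 : Real.exp (-(2 * π * q.re * t)) ≤ Real.exp (-(π * q₀.re) * t ^ (1 : ℝ)) := by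
      refine Real.exp_le_exp.2 ?_
      rw [Real.rpow_one]
      have : π * t * q₀.re ≤ π * t * (2 * q.re) :=
        mul_le_mul_of_nonneg_left (by linarith) (by positivity)
      nlinarith
    calc Real.exp (-(2 * π * q.re * t)) * (2 * π * t) * t ^ (-(1 / 2) : ℝ)
        = 2 * π * ((t * t ^ (-(1 / 2) : ℝ)) * Real.exp (-(2 * π * q.re * t))) := by ring
      _ ≤ _ := by
        rw [e3]
        refine mul_le_mul_of_nonneg_left ?_ (by positivity)
        exact mul_le_mul_of_nonneg_left e4 (by positivity)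
  · refine Integrable.const_mul ?_ _
    exact (integrableOn_rpow_mul_exp_neg_mul_rpow (s := 1 / 2) (p := 1) (b := π * q₀.re)
      (by norm_num) (by norm_num) (by positivity)).mono_set
      (Ioi_subset_Ioi (zero_le_one (α := ℝ)))
  · refine ae_of_all _ fun t q _ => ?_
    refine HasDerivAt.mul_const ?_ _
    have h5 : HasDerivAt (fun q : ℂ => -(2 * π * q * t)) (-(2 * π * t)) q := by
      have h6 : HasDerivAt (fun q : ℂ => -(2 * π * q * t)) (-(2 * π * 1 * t)) q :=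
        (((hasDerivAt_id q).const_mul (2 * (π : ℂ))).mul_const (t : ℂ)).neg
      rwa [mul_one] at h6
    exact h5.cexp

/-! ### the sector -/

theorem isOpen_Sec : IsOpen Sec := isOpen_lt (by fun_prop) (by fun_prop)

theorem Sec_slit {w : ℂ} (hw : w ∈ Sec) : w ∈ Complex.slitPlane := by
  left
  exact lt_of_le_of_lt (abs_nonneg _) hw

theorem Sec_ne {w : ℂ} (hw : w ∈ Sec) : w ≠ 0 := by
  rintro rfl
  have h : |(0 : ℂ).im| < (0 : ℂ).re := hw
  simp at h

/-- the square root -/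
noncomputable def zr (w : ℂ) : ℂ := w ^ (1 / 2 : ℂ)

theorem zr_sq {w : ℂ} : zr w ^ 2 = w := by
  unfold zr
  rw [← Complex.cpow_nat_mul]
  norm_num

theorem norm_zr (w : ℂ) : ‖zr w‖ = Real.sqrt ‖w‖ := by
  rw [← Real.sqrt_sq (norm_nonneg (zr w)), ← norm_pow, zr_sq]

theorem re_zr {w : ℂ} (hw : w ∈ Sec) : 0 < (zr w).re ∧ 9 / 10 * ‖zr w‖ ≤ (zr w).re := by
  have hw' : |w.im| < w.re := hw
  have hre : 0 < w.re := lt_of_le_of_lt (abs_nonneg _) hw'
  have h0 : 0 < (zr w).re := by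
    have hne := Sec_ne hw
    unfold zr
    rw [Complex.cpow_def_of_ne_zero hne, Complex.exp_re]
    refine mul_pos (Real.exp_pos _) (Real.cos_pos_of_mem_Ioo ?_)
    have h1 : (Complex.log w * (1 / 2 : ℂ)).im = w.arg / 2 := by
      have : (1 / 2 : ℂ) = ((1 / 2 : ℝ) : ℂ) := by push_cast; ring
      rw [this, Complex.im_mul_ofReal, Complex.log_im]
      ring
    rw [h1]
    have h2 := Complex.neg_pi_lt_arg w
    have h3 := Complex.arg_le_pi w
    have h4 : w.arg < π := lt_of_le_of_ne h3 (fun h => by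
      rw [Complex.arg_eq_pi_iff] at h
      linarith [h.1])
    constructor <;> linarith
  refine ⟨h0, ?_⟩
  have h1 : (zr w).re ^ 2 + (zr w).im ^ 2 = ‖w‖ := by
    have : ‖zr w‖ ^ 2 = ‖w‖ := by rw [← norm_pow, zr_sq]
    rw [← this, ← Complex.normSq_eq_norm_sq, Complex.normSq_apply]
    ring
  have h2 : (zr w).re ^ 2 - (zr w).im ^ 2 = w.re := by
    have := congrArg Complex.re (zr_sq (w := w))
    rw [pow_two, Complex.mul_re] at this
    rw [← this]
    ring
  have h3 : ‖w‖ ^ 2 = w.re ^ 2 + w.im ^ 2 := by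
    rw [← Complex.normSq_eq_norm_sq, Complex.normSq_apply]; ring
  have h4 : w.im ^ 2 < w.re ^ 2 := sq_lt_sq' (by linarith [(abs_lt.1 hw').1]) (abs_lt.1 hw').2
  have h5 : 0.7 * ‖w‖ ≤ w.re := by
    refine le_of_sq_le_sq ?_ hre.le
    rw [mul_pow, h3]
    nlinarith
  have h6 : (9 / 10 * ‖zr w‖) ^ 2 ≤ (zr w).re ^ 2 := by
    have : ‖zr w‖ ^ 2 = ‖w‖ := by rw [← norm_pow, zr_sq]
    rw [mul_pow, this]
    nlinarith [norm_nonneg w]
  exact le_of_sq_le_sq h6 h0.le

theorem diff_zr {w : ℂ} (hw : w ∈ Sec) : DifferentiableAt ℂ zr w := by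
  unfold zr
  exact DifferentiableAt.cpow differentiableAt_id (differentiableAt_const _) (Sec_slit hw)

theorem zr_ofReal {u : ℝ} (hu : 0 < u) : zr (u : ℂ) = ((Real.sqrt u : ℝ) : ℂ) := by
  unfold zr
  rw [Real.sqrt_eq_rpow, Complex.ofReal_cpow hu.le]
  push_cast
  rfl

theorem zr_ne {w : ℂ} (hw : w ∈ Sec) : zr w ≠ 0 := by
  intro h
  have := (re_zr hw).1
  rw [h] at this
  simp at this

/-- nonnegative combinations of `z` and its inverse -/
theorem comb {w : ℂ} (hw : w ∈ Sec) {a b : ℝ} (ha : 0 ≤ a) (hb : 0 ≤ b) (hab : 0 < a + b) :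
    0 < ((a : ℂ) * (zr w)⁻¹ + b * zr w).re ∧
    9 / 10 * (a * ‖zr w‖⁻¹ + b * ‖zr w‖) ≤ ((a : ℂ) * (zr w)⁻¹ + b * zr w).re ∧
    9 / 10 * ‖(a : ℂ) * (zr w)⁻¹ + b * zr w‖ ≤ ((a : ℂ) * (zr w)⁻¹ + b * zr w).re := by
  obtain ⟨h1, h2⟩ := re_zr hw
  have hn : 0 < ‖zr w‖ := norm_pos_iff.2 (zr_ne hw)
  have h3 : (zr w)⁻¹.re = (zr w).re * (‖zr w‖⁻¹) ^ 2 := by
    rw [Complex.inv_re, Complex.normSq_eq_norm_sq, div_eq_mul_inv, inv_pow]
  have h4 : 9 / 10 * ‖zr w‖⁻¹ ≤ (zr w)⁻¹.re := by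
    rw [h3]
    calc 9 / 10 * ‖zr w‖⁻¹ = (9 / 10 * ‖zr w‖) * (‖zr w‖⁻¹) ^ 2 := by
          field_simp
      _ ≤ _ := mul_le_mul_of_nonneg_right h2 (by positivity)
  have h5 : ((a : ℂ) * (zr w)⁻¹ + b * zr w).re = a * (zr w)⁻¹.re + b * (zr w).re := by
    rw [Complex.add_re, Complex.re_ofReal_mul, Complex.re_ofReal_mul]
  have h6 : 9 / 10 * (a * ‖zr w‖⁻¹ + b * ‖zr w‖) ≤ ((a : ℂ) * (zr w)⁻¹ + b * zr w).re := by
    rw [h5]
    have e1 := mul_le_mul_of_nonneg_left h4 ha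
    have e2 := mul_le_mul_of_nonneg_left h2 hb
    linarith
  have h7 : 0 < a * ‖zr w‖⁻¹ + b * ‖zr w‖ := by
    rcases ha.lt_or_eq with h | h
    · positivity
    · have : 0 < b := by linarith
      positivity
  refine ⟨by linarith, h6, ?_⟩
  refine le_trans ?_ h6
  refine mul_le_mul_of_nonneg_left ?_ (by norm_num)
  refine (norm_add_le _ _).trans (le_of_eq ?_)
  rw [norm_mul, norm_mul, Complex.norm_real, Complex.norm_real, Real.norm_of_nonneg ha,
    Real.norm_of_nonneg hb, norm_inv]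

end Pool.Agent.H66.CN
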